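import Mathlib
import Pool.Agent.Lib.helper3.Girth

namespace Pool.Agent.Lib.helper17.Erdos
open SimpleGraph Finset Pool.Agent.Lib.helper3.Girth

lemma nb {V : Type} [Finite V] [DecidableEq V] (T : SimpleGraph V) (u v x : V) :
    ((T ⊔ edge u v).neighborSet x).ncard ≤ (T.neighborSet x).ncard +
      ((if x = u then 1 else 0) + if x = v then 1 else 0) := by
  have h : (T ⊔ edge u v).neighborSet x ⊆ T.neighborSet x ∪
      ((if x = u then {v} else ∅) ∪ if x = v then {u} else ∅) := by
    rintro y (hy | hy)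
    · exact Or.inl hy
    · rw [edge_adj] at hy
      rcases hy.1 with ⟨rfl, rfl⟩ | ⟨rfl, rfl⟩ <;> simp
  refine (Set.ncard_le_ncard h).trans ((Set.ncard_union_le _ _).trans (Nat.add_le_add_left
    ((Set.ncard_union_le _ _).trans (Nat.add_le_add ?_ ?_)) _)) <;> split_ifs <;> simp

open Classical in
lemma step {V : Type} [Fintype V] (g k D t m : ℕ) (hV : Fintype.card V = k * (4 * t)) (hk : 0 < k) (ht : (D + 1) ^ (g + 1) ≤ t) (hm : m ≤ t * D) :
    ∃ T : SimpleGraph V, (∀ v (c : T.Walk v v), c.IsCycle → g < c.length) ∧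
      (∀ v, (T.neighborSet v).ncard ≤ D) ∧ ∑ v, (T.neighborSet v).ncard ≤ 2 * m ∧
      (#{c : V → Fin k | ∀ u v, T.Adj u v → c u ≠ c v} : ℝ) ≤
        k ^ (k * (4 * t)) * (1 - 1 / (16 * k ^ 2)) ^ m := by
  induction m with
  | zero =>
    refine ⟨⊥, fun v c hc => absurd hc (isAcyclic_bot c), fun v => by simp [neighborSet],
      by simp [neighborSet], ?_⟩
    simp [hV]
  | succ m ih =>
    obtain ⟨T, h1, h2, h3, h4⟩ := ih (by omega)
    set P : Finset (V → Fin k) := {c | ∀ u v, T.Adj u v → c u ≠ c v} with hP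
    set U : Finset V := {v | (T.neighborSet v).ncard < D} with hU
    set A : Finset (V × V) :=
      {e | e.1 ∈ U ∧ e.2 ∈ U ∧ ∀ p : T.Walk e.2 e.1, g + 1 < p.length} with hA
    have t0 : 0 < t := lt_of_lt_of_le (by positivity) ht
    have D0 : 0 < D := Nat.pos_of_ne_zero (by rintro rfl; omega)
    have s1 : #Uᶜ ≤ 2 * t := by
      have a : #Uᶜ * D ≤ ∑ v, (T.neighborSet v).ncard :=
        le_trans (card_nsmul_le_sum _ _ _ fun x hx => by simpa [hU] using hx)
          (sum_le_sum_of_subset (subset_univ _))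
      exact Nat.le_of_mul_le_mul_right (c := D) (by nlinarith) D0
    have s2 : ∀ c : V → Fin k, t ^ 2 ≤ #{e ∈ A | c e.1 = c e.2} := fun c => by
      have : Nonempty (Fin k) := ⟨⟨0, hk⟩⟩
      obtain ⟨i, hi⟩ := Fintype.exists_le_card_fiber_of_mul_le_card c (n := 4 * t) (by simp [hV])
      set X : Finset V := (univ.filter fun x => c x = i) \ Uᶜ with hX
      have x1 : 2 * t ≤ #X := by
        have := le_card_sdiff Uᶜ (univ.filter fun x => c x = i)
        rw [← hX] at this
        omega
      have x2 : ∀ u ∈ X, t ≤ #{e ∈ {e ∈ A | c e.1 = c e.2} | e.1 = u} := fun u hu => by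
        have b := ball_card T D h2 u (g + 1)
        rw [Set.ncard_eq_toFinset_card'] at b
        have b1 := le_card_sdiff {w | ∃ p : T.Walk w u, p.length ≤ g + 1}.toFinset X
        refine le_trans (by omega) (card_le_card_of_injOn (fun v => (u, v))
          (s := X \ {w | ∃ p : T.Walk w u, p.length ≤ g + 1}.toFinset) (fun v hv => ?_)
          fun a _ b _ h => (Prod.ext_iff.1 h).2)
        simp only [hX, coe_sdiff, coe_filter, mem_univ, true_and, coe_compl, Set.coe_toFinset,
          Set.mem_sdiff, Set.mem_ofPred_eq, Set.mem_compl_iff, mem_coe, not_not, not_exists,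
          not_le, mem_sdiff, mem_filter, mem_compl] at hu hv
        simp only [coe_filter, mem_filter, hA, mem_univ, true_and, Set.mem_ofPred_eq, and_true]
        exact ⟨⟨hu.2, hv.1.2, hv.2⟩, hu.1.trans hv.1.1.symm⟩
      have x3 := card_nsmul_le_sum _ _ _ x2
      have x4 := sum_card_fiberwise_eq_card_filter {e ∈ A | c e.1 = c e.2} X Prod.fst
      have x5 := card_filter_le {e ∈ A | c e.1 = c e.2} fun e => e.1 ∈ X
      rw [smul_eq_mul, x4] at x3
      nlinarith
    have s3 : ∑ c ∈ P, #{e ∈ A | c e.1 = c e.2} = ∑ e ∈ A, #{c ∈ P | c e.1 = c e.2} := by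
      simp only [card_filter]
      exact sum_comm
    have s4 : A.Nonempty := by
      obtain ⟨e, he⟩ := card_pos.1 (lt_of_lt_of_le (by positivity) (s2 fun _ => ⟨0, hk⟩))
      exact ⟨e, (mem_filter.1 he).1⟩
    obtain ⟨⟨u, v⟩, he, hx⟩ := exists_max_image A
      (fun e : V × V => #(P.filter fun c : V → Fin k => c e.1 = c e.2)) s4
    have s5 : #P ≤ 16 * k ^ 2 * #{c ∈ P | c u = c v} := by
      have a := card_nsmul_le_sum P _ _ fun c _ => s2 c
      have b := sum_le_card_nsmul _ _ _ hx
      have d : #A ≤ (k * (4 * t)) * (k * (4 * t)) := by simpa [hV] using card_le_univ A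
      rw [s3] at a
      rw [smul_eq_mul] at a b
      refine Nat.le_of_mul_le_mul_right (c := t ^ 2) ?_ (by positivity)
      exact a.trans (b.trans ((Nat.mul_le_mul_right _ d).trans_eq (by ring)))
    simp only [hA, hU, mem_filter, mem_univ, true_and] at he
    obtain ⟨hu, hv, hcon⟩ := he
    have huv : u ≠ v := by
      rintro rfl
      simpa using hcon Walk.nil
    refine ⟨T ⊔ edge u v, fun a c hc => ?_, fun x => (nb T u v x).trans ?_,
      (sum_le_sum fun x _ => nb T u v x).trans ?_, ?_⟩
    · rcases split_walk c hc.isTrail.edges_nodup with h1' | ⟨p, q, h1⟩ | ⟨p, q, h1⟩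
      · simpa using h1 a (c.transfer T h1') (hc.transfer h1')
      · have := hcon (q.append p)
        rw [Walk.length_append] at this
        omega
      · have := hcon (q.append p).reverse
        rw [Walk.length_reverse, Walk.length_append] at this
        omega
    · have := h2 x
      split_ifs with a b b
      · exact absurd (a.symm.trans b) huv
      · subst a; omega
      · subst b; omega
      · omega
    · simp only [sum_add_distrib, sum_ite_eq', mem_univ, if_true]
      omega
    · have a : ({c | ∀ a b, (T ⊔ edge u v).Adj a b → c a ≠ c b} :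
          Finset (V → Fin k)) ⊆ {c ∈ P | ¬ c u = c v} := fun c hc => by
        simp only [hP, mem_filter, mem_univ, true_and] at hc ⊢
        exact ⟨fun a b h => hc a b (Or.inl h),
          hc u v (Or.inr (by rw [edge_adj]; exact ⟨Or.inl ⟨rfl, rfl⟩, huv⟩))⟩
      have b := card_filter_add_card_filter_not (s := P) fun c => c u = c v
      have k0 : (0 : ℝ) < 16 * k ^ 2 := by positivity
      have k1 : (1 : ℝ) ≤ k := by exact_mod_cast hk
      have d : (0 : ℝ) ≤ 1 - 1 / (16 * k ^ 2) := by
        rw [sub_nonneg, div_le_one k0]; nlinarith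
      have e : (#{c ∈ P | ¬ c u = c v} : ℝ) ≤ #P * (1 - 1 / (16 * k ^ 2)) := by
        have b' : (#{c ∈ P | c u = c v} : ℝ) + #{c ∈ P | ¬ c u = c v} = #P := by exact_mod_cast b
        have s5' : (#P : ℝ) ≤ 16 * k ^ 2 * #{c ∈ P | c u = c v} := by exact_mod_cast s5
        rw [mul_sub, mul_one, mul_one_div, le_sub_comm, div_le_iff₀ k0]
        nlinarith
      refine le_trans (by exact_mod_cast card_le_card a) (e.trans ?_)
      rw [pow_succ _ m, ← mul_assoc]
      exact mul_le_mul_of_nonneg_right h4 d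

/-- Graphs of large girth and large chromatic number. -/
theorem erdos (g k : ℕ) : ∃ N, ∃ T : SimpleGraph (Fin N),
    (∀ v (c : T.Walk v v), c.IsCycle → g < c.length) ∧
      ∀ c : Fin N → Fin (k + 1), ∃ u v, T.Adj u v ∧ c u = c v := by
  classical
  have k1 : (1 : ℝ) ≤ (k + 1 : ℕ) := by simp
  obtain ⟨D, hD⟩ := exists_pow_lt_of_lt_one
    (show (0 : ℝ) < 1 / ((k + 1 : ℕ) : ℝ) ^ ((k + 1) * 4) by positivity)
    (show (1 : ℝ) - 1 / (16 * ((k + 1 : ℕ) : ℝ) ^ 2) < 1 from sub_lt_self _ (by positivity))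
  obtain ⟨T, h1, -, -, h4⟩ := step g (k + 1) D _ _ (Fintype.card_fin _) k.succ_pos le_rfl le_rfl
  refine ⟨_, T, h1, fun c => ?_⟩
  by_contra h
  push Not at h
  have d : (0 : ℝ) ≤ 1 - 1 / (16 * ((k + 1 : ℕ) : ℝ) ^ 2) := by
    rw [sub_nonneg, div_le_one (by positivity)]; nlinarith
  rw [lt_div_iff₀' (by positivity)] at hD
  have a := h4.trans_lt (by
    rw [← mul_assoc (k + 1), pow_mul, mul_comm _ D, pow_mul _ D, ← mul_pow]
    exact pow_lt_one₀ (by positivity) hD (by positivity))
  rw [Nat.cast_lt_one, card_eq_zero] at a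
  simp only [filter_eq_empty_iff] at a
  exact a (by simp) h

/-- Each edge of a graph of large girth is separated by a function that is flat elsewhere. -/
theorem sep {V : Type} {T : SimpleGraph V} {g : ℕ}
    (h : ∀ v (c : T.Walk v v), c.IsCycle → g < c.length) {p q : V} (hpq : T.Adj p q) :
    ∃ y : V → ℕ, y p = 0 ∧ y q = g ∧ (∀ u, y u ≤ g) ∧
      ∀ u v, T.Adj u v → s(u, v) ≠ s(p, q) → y v ≤ y u + 1 := by
  classical
  let H := T.deleteEdges {s(p, q)}
  have e : ∀ u, ((min (H.edist p u) g).toNat : ℕ∞) = min (H.edist p u) g := fun u =>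
    ENat.natCast_toNat (ne_top_of_le_ne_top (ENat.natCast_ne_top g) (min_le_right _ _))
  refine ⟨fun u => (min (H.edist p u) g).toNat, by simp, ?_, fun u => ?_, fun u v a b => ?_⟩
  · rw [← Nat.cast_inj (R := ℕ∞), e, min_eq_right]
    rw [edist_eq_sInf]
    refine le_sInf ?_
    rintro _ ⟨w, rfl⟩
    have w1 : ∀ e ∈ w.bypass.edges, e ∈ T.edgeSet := fun e he =>
      edgeSet_mono (deleteEdges_le _) (w.bypass.edges_subset_edgeSet he)
    have w2 := h q (Walk.cons hpq.symm (w.bypass.transfer T w1)) ((Walk.cons_isCycle_iff _ _).2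
      ⟨w.bypass_isPath.transfer _, fun he => by
        rw [Walk.edges_transfer] at he
        have := w.bypass.edges_subset_edgeSet he
        simp [H, Sym2.eq_swap] at this⟩)
    have w3 := w.length_bypass_le_length
    simp only [Walk.length_cons, Walk.length_transfer] at w2
    exact Nat.cast_le.2 (by omega)
  · rw [← Nat.cast_le (α := ℕ∞), e]
    exact min_le_right _ _
  · rw [← Nat.cast_le (α := ℕ∞), Nat.cast_add, e, e, Nat.cast_one, ← min_add_add_right]
    refine min_le_min ((H.edist_triangle (v := u)).trans (le_of_eq ?_)) le_self_add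
    rw [(edist_eq_one_iff_adj (u := u) (v := v)).2 (by simpa [H] using ⟨a, by simpa using b⟩)]

end Pool.Agent.Lib.helper17.Erdos
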